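import Pool.Agent.Work.MP_0fc146_gt_h31.Main

/-!
# A shift of finite type in the mapping class group of `S_{2,1}` whose limit set is a circle of
cobounded foliations
-/

namespace Pool.Agent.Results.MP_0fc146_gt.CircleShift

open Pool.Agent.CircleShift

/-- There are a finite set `F` of mapping classes of the surface `S_{2,1}` of genus two with one
puncture, a set `P` of pairs, and a point `x` of the Teichmuller space such that the sets `A_n(x)`
converge in the Hausdorff topology to a circle `C` of (uniformly) cobounded foliations. -/
theorem result : ∃ (F : Set Mod) (P : Set (Mod × Mod)) (x : Teich) (ε : ℝ) (C : Set PLen),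
    F.Finite ∧ P ⊆ F ×ˢ F ∧ 0 < ε ∧
    HausdorffLim (fun n => Teich.toPLen '' shiftSet F P x n) C ∧
    Nonempty (C ≃ₜ Circle) ∧ C ⊆ COB ε :=
  finalStatement

end Pool.Agent.Results.MP_0fc146_gt.CircleShift
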